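import Pool.Agent.Lib.MP_7b2682_an.Nodes
import Pool.Agent.Lib.MP_7b2682_an.K.L1

set_option autoImplicit false

namespace Pool.Agent.FRecExK

open Pool.Agent.FRecEx

variable {𝕜 : Type} [RCLike 𝕜]

/-- weighted absolute sum -/
noncomputable def nrm (ρ : ℕ × ℕ → ℝ) (η : ℕ × ℕ →₀ 𝕜) : ℝ := η.sum fun μ r => ‖r‖ * ρ μ

/-- evaluate a combination of nodes, shifted by t, in a family -/
noncomputable def sh {E : Type*} [AddCommMonoid E] [Module 𝕜 E] (A : ℕ × ℕ → E) (t : ℕ) :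
    (ℕ × ℕ →₀ 𝕜) →ₗ[𝕜] E := Finsupp.linearCombination 𝕜 (fun ν => A (ν.1, ν.2 + t))

lemma sh_apply {E : Type*} [AddCommMonoid E] [Module 𝕜 E] (A : ℕ × ℕ → E) (t : ℕ)
    (η : ℕ × ℕ →₀ 𝕜) : sh A t η = η.sum fun ν r => r • A (ν.1, ν.2 + t) := by
  unfold sh; rw [Finsupp.linearCombination_apply]

lemma sh_single {E : Type*} [AddCommMonoid E] [Module 𝕜 E] (A : ℕ × ℕ → E) (t : ℕ)
    (ν : ℕ × ℕ) (r : 𝕜) : sh A t (Finsupp.single ν r) = r • A (ν.1, ν.2 + t) := by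
  unfold sh; rw [Finsupp.linearCombination_single]

/-- translate a combination of nodes -/
noncomputable def tr (n : ℕ) (η : ℕ × ℕ →₀ 𝕜) : ℕ × ℕ →₀ 𝕜 :=
  η.mapDomain (fun ν => (ν.1, ν.2 + n))

lemma tr_inj (n : ℕ) : Function.Injective (fun ν : ℕ × ℕ => (ν.1, ν.2 + n)) := by
  intro a b h
  simp only [Prod.mk.injEq, Nat.add_right_cancel_iff] at h
  exact Prod.ext h.1 h.2

lemma sh_tr {E : Type*} [AddCommMonoid E] [Module 𝕜 E] (A : ℕ × ℕ → E) (t n : ℕ)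
    (η : ℕ × ℕ →₀ 𝕜) : sh A t (tr n η) = sh A (n + t) η := by
  rw [sh_apply, sh_apply, tr, Finsupp.sum_mapDomain_index_inj (tr_inj n)]
  simp only [Nat.add_assoc]

/-- enumeration of the rational combinations of nodes -/
noncomputable def en : ℕ → (ℕ × ℕ →₀ ℚ × ℚ) := (exists_surjective_nat (ℕ × ℕ →₀ ℚ × ℚ)).choose

lemma en_surj : Function.Surjective en := (exists_surjective_nat (ℕ × ℕ →₀ ℚ × ℚ)).choose_spec

/-- the scalar with given rational real and imaginary part (over `ℝ`: the rational number) -/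
noncomputable def cst {𝕜 : Type} [RCLike 𝕜] (x : ℚ × ℚ) : 𝕜 :=
  ((x.1 : ℝ) : 𝕜) + ((x.2 : ℝ) : 𝕜) * RCLike.I

/-- version over `𝕜` of a rational combination -/
noncomputable def rl (𝕜 : Type) [RCLike 𝕜] (η : ℕ × ℕ →₀ ℚ × ℚ) : ℕ × ℕ →₀ 𝕜 :=
  η.mapRange cst (by simp [cst])

open Classical in
/-- the target combination of type `l` -/
noncomputable def xi (𝕜 : Type) [RCLike 𝕜] (l : ℕ) : ℕ × ℕ →₀ 𝕜 :=
  if (∀ ν ∈ (rl 𝕜 (en (Nat.unpair l).2)).support, ν.1 < l ∧ ν.2 < l) ∧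
    nrm (fun _ => 1) (rl 𝕜 (en (Nat.unpair l).2)) ≤ l then rl 𝕜 (en (Nat.unpair l).2) else 0

lemma xi_supp {l : ℕ} {ν : ℕ × ℕ} (h : ν ∈ (xi 𝕜 l).support) : ν.1 < l ∧ ν.2 < l := by
  unfold xi at h
  split_ifs at h with h1
  · exact h1.1 ν h
  · simp at h

lemma nrm_zero (ρ : ℕ × ℕ → ℝ) : nrm ρ (0 : ℕ × ℕ →₀ 𝕜) = 0 := by
  unfold nrm; exact Finsupp.sum_zero_index

lemma xi_nrm (l : ℕ) : nrm (fun _ => 1) (xi 𝕜 l) ≤ l := by
  unfold xi
  split_ifs with h1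
  · exact h1.2
  · rw [nrm_zero]; positivity

lemma xi_dense (η : ℕ × ℕ →₀ ℚ × ℚ) (K : ℕ) : ∃ l ≥ K, xi 𝕜 l = rl 𝕜 η := by
  obtain ⟨k, hk⟩ := en_surj η
  obtain ⟨B, hB⟩ : ∃ B : ℕ, ∀ ν ∈ (rl 𝕜 η).support, ν.1 < B ∧ ν.2 < B := by
    refine ⟨(rl 𝕜 η).support.sup (fun ν => ν.1 + ν.2 + 1), ?_⟩
    intro ν hν
    have : ν.1 + ν.2 + 1 ≤ _ := Finset.le_sup (f := fun ν : ℕ × ℕ => ν.1 + ν.2 + 1) hν
    omega
  obtain ⟨C, hC⟩ := exists_nat_ge (nrm (fun _ => 1) (rl 𝕜 η))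
  set j := K + B + C
  have hl : j ≤ Nat.pair j k := Nat.left_le_pair j k
  refine ⟨Nat.pair j k, by omega, ?_⟩
  unfold xi
  rw [Nat.unpair_pair]
  simp only [hk]
  rw [if_pos]
  refine ⟨fun ν hν => ?_, ?_⟩
  · have := hB ν hν; omega
  · refine hC.trans ?_
    have : C ≤ Nat.pair j k := by omega
    exact_mod_cast this

open Classical in
/-- the parents of a node -/
noncomputable def pr (𝕜 : Type) [RCLike 𝕜] (l n : ℕ) : ℕ × ℕ →₀ 𝕜 :=
  if Link l n then (if ag l n < n then Finsupp.single (l, ag l n) 1 else tr n (xi 𝕜 l)) else 0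

lemma pr_nonlink {l n : ℕ} (h : ¬ Link l n) : pr 𝕜 l n = 0 := by
  unfold pr; rw [if_neg h]

lemma pr_ret {l n c a : ℕ} (h : InWin l n c a) (ha : a < s c) (han : a < n) :
    pr 𝕜 l n = Finsupp.single (l, a) 1 := by
  unfold pr; rw [if_pos ⟨c, a, h, ha⟩, h.ag_eq, if_pos han]

lemma pr_init {l n c a : ℕ} (h : InWin l n c a) (ha : a < s c) (han : ¬ a < n) :
    pr 𝕜 l n = tr n (xi 𝕜 l) := by
  unfold pr; rw [if_pos ⟨c, a, h, ha⟩, h.ag_eq, if_neg han]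

lemma tr_supp {n : ℕ} {η : ℕ × ℕ →₀ 𝕜} {ν : ℕ × ℕ} (h : ν ∈ (tr n η).support) :
    ∃ ν' ∈ η.support, ν = (ν'.1, ν'.2 + n) := by
  have := Finsupp.mapDomain_support h
  rw [Finset.mem_image] at this
  obtain ⟨a, ha, hb⟩ := this
  exact ⟨a, ha, hb.symm⟩

lemma pr_supp {l n c a : ℕ} (h : InWin l n c a) (ha : a < s c) {ν : ℕ × ℕ}
    (hν : ν ∈ (pr 𝕜 l n).support) :
    ν.1 < c ∧ ν.1 ≤ l ∧ (ν.1 < l ∨ (ν.1 = l ∧ ν.2 < n)) ∧ ∀ t, a + t < W c → ν.2 + t < q c := by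
  by_cases han : a < n
  · rw [pr_ret h ha han] at hν
    have h1 := Finsupp.support_single_subset hν
    rw [Finset.mem_singleton] at h1
    subst h1
    have h2 := (h.ret han).lt
    refine ⟨h2, le_rfl, Or.inr ⟨rfl, han⟩, ?_⟩
    intro t ht
    have := W_add_le_q c
    simp only
    omega
  · rw [pr_init h ha han] at hν
    obtain ⟨h1, h2⟩ := h.init han
    subst h1 h2
    obtain ⟨ν', h3, rfl⟩ := tr_supp hν
    have h4 := xi_supp h3
    refine ⟨h4.1, h4.1.le, Or.inl h4.1, ?_⟩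
    intro t ht
    have := W_add_le_q c
    simp only
    omega

lemma nrm_single (ρ : ℕ × ℕ → ℝ) (ν : ℕ × ℕ) (r : 𝕜) :
    nrm ρ (Finsupp.single ν r) = ‖r‖ * ρ ν := by
  unfold nrm; rw [Finsupp.sum_single_index]; simp

lemma pr_nrm {l n c a : ℕ} (h : InWin l n c a) (ha : a < s c) :
    nrm (fun _ => 1) (pr 𝕜 l n) ≤ c := by
  by_cases han : a < n
  · rw [pr_ret h ha han, nrm_single]
    have h2 := (h.ret han).lt
    have : 1 ≤ c := by omega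
    simp; exact_mod_cast this
  · rw [pr_init h ha han]
    obtain ⟨h1, h2⟩ := h.init han
    subst h1 h2
    refine le_trans (le_of_eq ?_) (xi_nrm (𝕜 := 𝕜) c)
    unfold nrm tr
    rw [Finsupp.sum_mapDomain_index_inj (tr_inj a)]

lemma sh_pr_shift {E : Type*} [AddCommMonoid E] [Module 𝕜 E] (A : ℕ × ℕ → E) {l n c a t : ℕ}
    (h : InWin l n c a) (ht : a + t < s c) : sh A 0 (pr 𝕜 l (n + t)) = sh A t (pr 𝕜 l n) := by
  have hW := s_lt_W c
  have h' : InWin l (n + t) c (a + t) := h.shift (by omega)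
  by_cases han : a < n
  · rw [pr_ret h (by omega) han, pr_ret h' ht (by omega), sh_single, sh_single]
    simp
  · rw [pr_init h (by omega) han, pr_init h' ht (by omega), sh_tr, sh_tr]
    simp

open Classical in
/-- the coefficients of the nodes -/
noncomputable def al (𝕜 : Type) [RCLike 𝕜] : ℕ × ℕ → (ℕ × ℕ →₀ 𝕜)
  | (l, n) => Finsupp.single (l, n) 1 + ∑ ν ∈ (pr 𝕜 l n).support.attach,
      if h : (ν.1.1 < l ∨ (ν.1.1 = l ∧ ν.1.2 < n)) then (pr 𝕜 l n) ν.1 • al 𝕜 (ν.1.1, ν.1.2) else 0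
termination_by p => p
decreasing_by
  rw [Prod.lex_def]
  exact h

lemma al_eq (l n : ℕ) : al 𝕜 (l, n) = Finsupp.single (l, n) 1 + sh (al 𝕜) 0 (pr 𝕜 l n) := by
  rw [al, sh_apply, Finsupp.sum]
  congr 1
  rw [← Finset.sum_attach (pr 𝕜 l n).support]
  apply Finset.sum_congr rfl
  rintro ⟨ν, hν⟩ _
  have hl : Link l n := by
    by_contra hcon
    rw [pr_nonlink hcon] at hν
    simp at hν
  obtain ⟨c, a, h, ha⟩ := hl
  rw [dif_pos (pr_supp h ha hν).2.2.1]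
  simp

lemma lex_ind {P : ℕ → ℕ → Prop}
    (h : ∀ l n, (∀ l' n', (l' < l ∨ (l' = l ∧ n' < n)) → P l' n') → P l n) : ∀ l n, P l n := by
  intro l
  induction l using Nat.strong_induction_on with
  | _ l ih =>
    intro n
    induction n using Nat.strong_induction_on with
    | _ n ih' =>
      apply h
      rintro l' n' (h1 | ⟨h1, h2⟩)
      · exact ih l' h1 n'
      · subst h1; exact ih' n' h2

lemma al_nonlink {l n : ℕ} (h : ¬ Link l n) : al 𝕜 (l, n) = Finsupp.single (l, n) 1 := by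
  rw [al_eq, pr_nonlink h]; simp

end Pool.Agent.FRecExK
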