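import Pool.Agent.Lib.MP_7b2682_an.K.Operator

set_option autoImplicit false

open Topology

namespace Pool.Agent.FRecExK

open Pool.Agent.FRecEx

variable {𝕜 : Type} [RCLike 𝕜]

/-- frequently recurrent vectors of `T` -/
def FR (x : X 𝕜) : Prop := ∀ V ∈ 𝓝 x, ∃ δ : ℝ, 0 < δ ∧ ∃ N₀ : ℕ, ∀ N : ℕ, N₀ ≤ N →
  δ * (N : ℝ) ≤ (({n : ℕ | 1 ≤ n ∧ n ≤ N ∧ (T 𝕜 ^ n) x ∈ V}.ncard : ℕ) : ℝ)

lemma wk_start {l n c : ℕ} (h : InWin l n c 0) : wk 𝕜 (l, n) = 1 / 2 ^ c := by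
  unfold wk
  rw [wt_link h (by have := s_pos c; omega), pow_zero]
  push_cast
  rfl

lemma norm_half_pow (c : ℕ) : ‖(1 / 2 ^ c : 𝕜)‖ = 1 / 2 ^ c := by
  rw [norm_div, norm_one, norm_pow, RCLike.norm_ofNat]

lemma U_return {l c m : ℕ} (h : Ret l c m) : (T 𝕜 ^ m) (U 𝕜 (l, 0)) - U 𝕜 (l, 0) =
    (1 / 2 ^ c : 𝕜) • e 𝕜 (l, m) := by
  have h1 := inWin_ret h
  have hm := L_pos h.2.2
  rw [Tpow_U, Nat.zero_add, U_eq, pr_ret h1 (by have := s_pos c; omega) (by omega), sh_single,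
    one_smul, wk_start h1]
  simp

lemma exists_code (l : ℕ) {ε : ℝ} (hε : 0 < ε) : ∃ c, 1 ≤ c ∧ ty c = l ∧ (1 / 2 ^ c : ℝ) < ε := by
  obtain ⟨k, hk⟩ := exists_pow_lt_of_lt_one hε (show (1/2 : ℝ) < 1 by norm_num)
  refine ⟨Nat.pair l (k + 1), ?_, ?_, ?_⟩
  · have := Nat.right_le_pair l (k + 1); omega
  · unfold ty; rw [Nat.unpair_pair]
  · have h1 := Nat.right_le_pair l (k + 1)
    calc (1 / 2 ^ (Nat.pair l (k + 1)) : ℝ) ≤ 1 / 2 ^ k := by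
          apply one_div_le_one_div_of_le (by positivity)
          exact pow_le_pow_right₀ (by norm_num) (by omega)
      _ = (1 / 2) ^ k := by rw [one_div_pow]
      _ < ε := hk

lemma FR_U (l : ℕ) : FR (U 𝕜 (l, 0)) := by
  intro V hV
  obtain ⟨ε, hε, hball⟩ := Metric.mem_nhds_iff.1 hV
  obtain ⟨c, hc1, hc2, hc3⟩ := exists_code l hε
  obtain ⟨δ, hδ, N₀, hN⟩ := L_density c
  refine ⟨δ, hδ, N₀, fun N hNN => (hN N hNN).trans ?_⟩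
  have : {m : ℕ | 1 ≤ m ∧ m ≤ N ∧ m ∈ L c}.ncard ≤
      {n : ℕ | 1 ≤ n ∧ n ≤ N ∧ (T 𝕜 ^ n) (U 𝕜 (l, 0)) ∈ V}.ncard := by
    apply Set.ncard_le_ncard
    · rintro m ⟨h1, h2, h3⟩
      refine ⟨h1, h2, hball ?_⟩
      rw [Metric.mem_ball, dist_eq_norm, U_return ⟨hc1, hc2, h3⟩, norm_smul, norm_e, mul_one,
        norm_half_pow]
      exact hc3
    · apply Set.Finite.subset (Set.finite_Icc 1 N)
      rintro m ⟨h1, h2, _⟩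
      exact ⟨h1, h2⟩
  exact_mod_cast this

lemma e_in_span (ν : ℕ × ℕ) : ∃ η : ℕ × ℕ →₀ 𝕜, e 𝕜 ν = sh (U 𝕜) 0 η := by
  obtain ⟨l, n⟩ := ν
  refine ⟨(wk 𝕜 (l, n))⁻¹ • (Finsupp.single (l, n) 1 - pr 𝕜 l n), ?_⟩
  rw [map_smul, map_sub, sh_single, one_smul, Nat.add_zero]
  exact e_eq l n

lemma finite_approx (x : X 𝕜) {ε : ℝ} (hε : 0 < ε) : ∃ η : ℕ × ℕ →₀ 𝕜, ‖x - sh (U 𝕜) 0 η‖ < ε := by
  have h1 := hasSum_e x
  have h2 := (Metric.tendsto_nhds.1 h1 ε hε).exists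
  obtain ⟨S, hS⟩ := h2
  choose f hf using e_in_span (𝕜 := 𝕜)
  refine ⟨∑ ν ∈ S, x ν • f ν, ?_⟩
  rw [map_sum]
  simp only [map_smul, ← hf]
  rw [← dist_eq_norm, dist_comm]
  exact hS

lemma norm_I_le : ‖(RCLike.I : 𝕜)‖ ≤ 1 := by
  by_cases h : (RCLike.I : 𝕜) = 0
  · rw [h, norm_zero]; exact zero_le_one
  · exact (RCLike.norm_I_of_ne_zero h).le

lemma cst_approx (r : 𝕜) {ε : ℝ} (hε : 0 < ε) :
    ∃ p : ℚ × ℚ, (r = 0 → p = 0) ∧ ‖r - cst p‖ < ε := by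
  by_cases hr : r = 0
  · exact ⟨0, fun _ => rfl, by rw [hr]; simpa [cst] using hε⟩
  · obtain ⟨p, hp⟩ := exists_rat_near (RCLike.re r) (half_pos hε)
    obtain ⟨q, hq⟩ := exists_rat_near (RCLike.im r) (half_pos hε)
    refine ⟨(p, q), fun h => absurd h hr, ?_⟩
    have h1 : r - cst (p, q) = (((RCLike.re r - p : ℝ)) : 𝕜) +
        (((RCLike.im r - q : ℝ)) : 𝕜) * RCLike.I := by
      conv_lhs => rw [← RCLike.re_add_im r]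
      unfold cst
      push_cast
      ring
    rw [h1]
    refine (norm_add_le _ _).trans_lt ?_
    rw [norm_mul, RCLike.norm_ofReal, RCLike.norm_ofReal]
    have h2 := norm_I_le (𝕜 := 𝕜)
    have h3 : |RCLike.im r - (q : ℝ)| * ‖(RCLike.I : 𝕜)‖ ≤ |RCLike.im r - (q : ℝ)| :=
      mul_le_of_le_one_right (abs_nonneg _) h2
    linarith

lemma rat_approx (η : ℕ × ℕ →₀ 𝕜) {ε : ℝ} (hε : 0 < ε) :
    ∃ η' : ℕ × ℕ →₀ ℚ × ℚ, ‖sh (U 𝕜) 0 η - sh (U 𝕜) 0 (rl 𝕜 η')‖ < ε := by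
  obtain ⟨M, hM0, hM⟩ : ∃ M : ℝ, 0 < M ∧ ∑ ν ∈ η.support, ‖U 𝕜 ν‖ ≤ M :=
    ⟨∑ ν ∈ η.support, ‖U 𝕜 ν‖ + 1, by positivity, by linarith⟩
  have hδ : 0 < ε / (2 * M) := by positivity
  choose f hf0 hf using fun r : 𝕜 => cst_approx r hδ
  refine ⟨η.mapRange f (hf0 0 rfl), ?_⟩
  rw [← map_sub, sh_apply]
  have hsub : (η - rl 𝕜 (η.mapRange f (hf0 0 rfl))).support ⊆ η.support := by
    intro μ hμ
    rw [Finsupp.mem_support_iff] at hμ ⊢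
    intro h0
    apply hμ
    rw [Finsupp.sub_apply, rl, Finsupp.mapRange_apply, Finsupp.mapRange_apply, h0, hf0 0 rfl]
    simp [cst]
  rw [Finsupp.sum_of_support_subset _ hsub _ (by simp)]
  calc ‖∑ μ ∈ η.support, (η - rl 𝕜 (η.mapRange f (hf0 0 rfl))) μ • U 𝕜 (μ.1, μ.2 + 0)‖
      ≤ ∑ μ ∈ η.support, ε / (2 * M) * ‖U 𝕜 μ‖ := by
        refine (norm_sum_le _ _).trans (Finset.sum_le_sum fun μ _ => ?_)
        rw [norm_smul, Finsupp.sub_apply, rl, Finsupp.mapRange_apply,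
          Finsupp.mapRange_apply, Nat.add_zero]
        exact mul_le_mul_of_nonneg_right (hf _).le (norm_nonneg _)
    _ = ε / (2 * M) * ∑ μ ∈ η.support, ‖U 𝕜 μ‖ := by rw [Finset.mul_sum]
    _ ≤ ε / (2 * M) * M := mul_le_mul_of_nonneg_left hM hδ.le
    _ = ε / 2 := by field_simp
    _ < ε := by linarith

lemma U_zero (l : ℕ) : U 𝕜 (l, 0) - sh (U 𝕜) 0 (xi 𝕜 l) = (1 / 2 ^ l : 𝕜) • e 𝕜 (l, 0) := by
  have h1 : InWin l 0 l 0 := inWin_init (by have := s_lt_W l; omega)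
  rw [U_eq, pr_init h1 (by have := s_pos l; omega) (by omega), sh_tr,
    wk_start h1]
  simp

lemma dense_FR : Dense {x : X 𝕜 | FR x} := by
  rw [Metric.dense_iff]
  intro x ε hε
  obtain ⟨η, hη⟩ := finite_approx x (show 0 < ε / 3 by positivity)
  obtain ⟨η', hη'⟩ := rat_approx η (show 0 < ε / 3 by positivity)
  obtain ⟨k, hk⟩ := exists_pow_lt_of_lt_one (show 0 < ε / 3 by positivity)
    (show (1/2 : ℝ) < 1 by norm_num)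
  obtain ⟨l, hl, hxi⟩ := xi_dense (𝕜 := 𝕜) η' k
  refine ⟨U 𝕜 (l, 0), ?_, FR_U l⟩
  have h1 : ‖U 𝕜 (l, 0) - sh (U 𝕜) 0 (rl 𝕜 η')‖ < ε / 3 := by
    rw [← hxi, U_zero, norm_smul, norm_e, mul_one, norm_half_pow]
    calc (1 / 2 ^ l : ℝ) ≤ 1 / 2 ^ k := by
          apply one_div_le_one_div_of_le (by positivity)
          exact pow_le_pow_right₀ (by norm_num) (by omega)
      _ = (1 / 2) ^ k := by rw [one_div_pow]
      _ < ε / 3 := hk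
  rw [Metric.mem_ball, dist_eq_norm]
  calc ‖U 𝕜 (l, 0) - x‖ = ‖(U 𝕜 (l, 0) - sh (U 𝕜) 0 (rl 𝕜 η')) - (sh (U 𝕜) 0 η - sh (U 𝕜) 0 (rl 𝕜 η')) -
        (x - sh (U 𝕜) 0 η)‖ := by congr 1; abel
    _ ≤ ‖U 𝕜 (l, 0) - sh (U 𝕜) 0 (rl 𝕜 η')‖ + ‖sh (U 𝕜) 0 η - sh (U 𝕜) 0 (rl 𝕜 η')‖ + ‖x - sh (U 𝕜) 0 η‖ := by
        refine (norm_sub_le _ _).trans ?_
        gcongr
        exact norm_sub_le _ _
    _ < ε := by linarith

end Pool.Agent.FRecExK
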