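import Pool.Agent.Lib.MP_7b2682_an.K.Alpha

set_option autoImplicit false

namespace Pool.Agent.FRecExK

open Pool.Agent.FRecEx

variable {𝕜 : Type} [RCLike 𝕜]

lemma nrm_eq_sum {ρ : ℕ × ℕ → ℝ} {η : ℕ × ℕ →₀ 𝕜} {S : Finset (ℕ × ℕ)} (h : η.support ⊆ S) :
    nrm ρ η = ∑ μ ∈ S, ‖η μ‖ * ρ μ := by
  unfold nrm
  rw [Finsupp.sum_of_support_subset _ h]
  simp

lemma nrm_nonneg {ρ : ℕ × ℕ → ℝ} (hρ : ∀ μ, 0 ≤ ρ μ) (η : ℕ × ℕ →₀ 𝕜) : 0 ≤ nrm ρ η := by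
  rw [nrm_eq_sum (Finset.Subset.refl _)]
  exact Finset.sum_nonneg fun μ _ => mul_nonneg (norm_nonneg _) (hρ μ)

lemma nrm_add_le {ρ : ℕ × ℕ → ℝ} (hρ : ∀ μ, 0 ≤ ρ μ) (η η' : ℕ × ℕ →₀ 𝕜) :
    nrm ρ (η + η') ≤ nrm ρ η + nrm ρ η' := by
  classical
  rw [nrm_eq_sum (S := η.support ∪ η'.support) Finsupp.support_add,
    nrm_eq_sum (η := η) (S := η.support ∪ η'.support) Finset.subset_union_left,
    nrm_eq_sum (η := η') (S := η.support ∪ η'.support) Finset.subset_union_right,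
    ← Finset.sum_add_distrib]
  apply Finset.sum_le_sum
  intro μ _
  rw [← add_mul, Finsupp.add_apply]
  exact mul_le_mul_of_nonneg_right (norm_add_le _ _) (hρ μ)

lemma nrm_smul (ρ : ℕ × ℕ → ℝ) (r : 𝕜) (η : ℕ × ℕ →₀ 𝕜) : nrm ρ (r • η) = ‖r‖ * nrm ρ η := by
  rw [nrm_eq_sum (S := η.support) Finsupp.support_smul, nrm_eq_sum (Finset.Subset.refl _),
    Finset.mul_sum]
  apply Finset.sum_congr rfl
  intro μ _
  rw [Finsupp.smul_apply, smul_eq_mul, norm_mul]; ring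

lemma nrm_sum_le {ρ : ℕ × ℕ → ℝ} (hρ : ∀ μ, 0 ≤ ρ μ) {ι : Type*} (S : Finset ι)
    (f : ι → (ℕ × ℕ →₀ 𝕜)) : nrm ρ (∑ i ∈ S, f i) ≤ ∑ i ∈ S, nrm ρ (f i) := by
  classical
  induction S using Finset.induction_on with
  | empty => simp [nrm_zero]
  | insert i S hi ih =>
    rw [Finset.sum_insert hi, Finset.sum_insert hi]
    exact (nrm_add_le hρ _ _).trans (by linarith)

lemma nrm_mono {ρ ρ' : ℕ × ℕ → ℝ} (h : ∀ μ, ρ μ ≤ ρ' μ) (η : ℕ × ℕ →₀ 𝕜) :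
    nrm ρ η ≤ nrm ρ' η := by
  rw [nrm_eq_sum (Finset.Subset.refl _), nrm_eq_sum (Finset.Subset.refl _)]
  exact Finset.sum_le_sum fun μ _ => mul_le_mul_of_nonneg_left (h μ) (norm_nonneg _)

lemma le_nrm {ρ : ℕ × ℕ → ℝ} (hρ : ∀ μ, 0 ≤ ρ μ) (η : ℕ × ℕ →₀ 𝕜) (μ : ℕ × ℕ) :
    ‖η μ‖ * ρ μ ≤ nrm ρ η := by
  classical
  rw [nrm_eq_sum (S := insert μ η.support) (Finset.subset_insert _ _)]
  exact Finset.single_le_sum (f := fun μ => ‖η μ‖ * ρ μ)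
    (fun ν _ => mul_nonneg (norm_nonneg _) (hρ ν)) (Finset.mem_insert_self _ _)

lemma nrm_sh_le {ρ : ℕ × ℕ → ℝ} (hρ : ∀ μ, 0 ≤ ρ μ) (A : ℕ × ℕ → (ℕ × ℕ →₀ 𝕜)) (t : ℕ)
    (η : ℕ × ℕ →₀ 𝕜) {B : ℝ} (h : ∀ ν ∈ η.support, nrm ρ (A (ν.1, ν.2 + t)) ≤ B) :
    nrm ρ (sh A t η) ≤ nrm (fun _ => 1) η * B := by
  rw [sh_apply, Finsupp.sum, nrm_eq_sum (ρ := fun _ => 1) (η := η) (Finset.Subset.refl _),
    Finset.sum_mul]
  refine (nrm_sum_le hρ _ _).trans (Finset.sum_le_sum fun ν hν => ?_)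
  rw [nrm_smul, mul_one]
  exact mul_le_mul_of_nonneg_left (h ν hν) (norm_nonneg _)

/-- the basic weight -/
noncomputable def rho (μ : ℕ × ℕ) : ℝ := max (wt μ) 1

/-- the basic weight restricted to large indices -/
noncomputable def rhot (t : ℕ) (μ : ℕ × ℕ) : ℝ := if t ≤ μ.2 then max (wt μ) 1 else 0

lemma rho_nonneg (μ : ℕ × ℕ) : 0 ≤ rho μ := le_trans zero_le_one (le_max_right _ _)

lemma one_le_rho (μ : ℕ × ℕ) : 1 ≤ rho μ := le_max_right _ _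

lemma rhot_nonneg (t : ℕ) (μ : ℕ × ℕ) : 0 ≤ rhot t μ := by
  unfold rhot; split_ifs
  · exact rho_nonneg μ
  · exact le_rfl

lemma rhot_le (t : ℕ) (μ : ℕ × ℕ) : rhot t μ ≤ rho μ := by
  unfold rhot; split_ifs
  · exact le_rfl
  · exact rho_nonneg μ

lemma rho_le (l n : ℕ) : rho (l, n) ≤ D (cd l n) := max_le (wt_le l n) (one_le_D _)

lemma al_nrm (l n : ℕ) : nrm rho (al 𝕜 (l, n)) ≤ rho (l, n) + E (cd l n) := by
  revert l n
  apply lex_ind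
  intro l n ih
  by_cases hl : Link l n
  · obtain ⟨c, a, h, ha⟩ := hl
    rw [al_eq]
    refine (nrm_add_le rho_nonneg _ _).trans ?_
    rw [nrm_single, norm_one, one_mul, h.cd_eq]
    gcongr
    have hB : ∀ ν ∈ (pr 𝕜 l n).support, nrm rho (al 𝕜 (ν.1, ν.2 + 0)) ≤ 2 * D (c - 1) := by
      intro ν hν
      obtain ⟨h1, h2, h3, h4⟩ := pr_supp h ha hν
      have h5 := h4 0 (by have := s_lt_W c; omega)
      have h6 := ih ν.1 ν.2 h3
      have h7 := cd_lt h1 (n := ν.2) (by omega)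
      have h8 := rho_le ν.1 ν.2
      have h9 := E_lt_of h7
      rw [Nat.add_zero]
      linarith
    refine (nrm_sh_le rho_nonneg (al 𝕜) 0 _ hB).trans ?_
    have h1 := pr_nrm (𝕜 := 𝕜) h ha
    have h2 := D_pos (c - 1)
    unfold E
    nlinarith
  · rw [al_nonlink hl, nrm_single, norm_one, one_mul]
    have := E_nonneg (cd l n)
    linarith

lemma al_nrm_le {l n c : ℕ} (hl : l < c) (hn : n < q c) : nrm rho (al 𝕜 (l, n)) ≤ 2 * D (c - 1) := by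
  have h1 := al_nrm (𝕜 := 𝕜) l n
  have h2 := rho_le l n
  have h3 := E_lt_of (cd_lt hl hn)
  linarith

lemma sh_nrm_le {l n c a t : ℕ} (h : InWin l n c a) (ha : a < s c) (ht : a + t < W c) :
    nrm rho (sh (al 𝕜) t (pr 𝕜 l n)) ≤ E c := by
  have hB : ∀ ν ∈ (pr 𝕜 l n).support, nrm rho (al 𝕜 (ν.1, ν.2 + t)) ≤ 2 * D (c - 1) := by
    intro ν hν
    obtain ⟨h1, h2, h3, h4⟩ := pr_supp h ha hν
    exact al_nrm_le h1 (h4 t ht)
  refine (nrm_sh_le rho_nonneg (al 𝕜) t _ hB).trans ?_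
  have h1 := pr_nrm (𝕜 := 𝕜) h ha
  have h2 := D_pos (c - 1)
  unfold E
  nlinarith

lemma pr_supp' {l n c a : ℕ} (h : InWin l n c a) (ha : a < s c) {ν : ℕ × ℕ}
    (hν : ν ∈ (pr 𝕜 l n).support) :
    (a < n ∧ ν = (l, a)) ∨ (a = n ∧ c = l ∧ ν.1 < l ∧ ν.2 < l + n) := by
  by_cases han : a < n
  · rw [pr_ret h ha han] at hν
    have h1 := Finsupp.support_single_subset hν
    rw [Finset.mem_singleton] at h1
    exact Or.inl ⟨han, h1⟩
  · rw [pr_init h ha han] at hν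
    obtain ⟨h1, h2⟩ := h.init han
    obtain ⟨ν', h3, rfl⟩ := tr_supp hν
    have h4 := xi_supp h3
    exact Or.inr ⟨h1, h2, h4.1, by simp only; omega⟩

lemma sh_ne_zero {A : ℕ × ℕ → (ℕ × ℕ →₀ 𝕜)} {t : ℕ} {η : ℕ × ℕ →₀ 𝕜} {μ : ℕ × ℕ}
    (h : sh A t η μ ≠ 0) : ∃ ν ∈ η.support, A (ν.1, ν.2 + t) μ ≠ 0 := by
  by_contra hcon
  push Not at hcon
  apply h
  rw [sh_apply, Finsupp.sum, Finsupp.finsetSum_apply]
  apply Finset.sum_eq_zero
  intro ν hν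
  rw [Finsupp.smul_apply, hcon ν hν, smul_zero]

/-- structure of the support of `al` -/
lemma al_ne_zero {l n : ℕ} {μ : ℕ × ℕ} (h : al 𝕜 (l, n) μ ≠ 0) :
    μ = (l, n) ∨ ∃ c a, InWin l n c a ∧ a < s c ∧ ∃ ν ∈ (pr 𝕜 l n).support, al 𝕜 ν μ ≠ 0 := by
  by_cases hμ : μ = (l, n)
  · exact Or.inl hμ
  · right
    by_cases hl : Link l n
    · obtain ⟨c, a, h1, ha⟩ := hl
      refine ⟨c, a, h1, ha, ?_⟩
      rw [al_eq, Finsupp.add_apply, Finsupp.single_eq_of_ne (by exact fun hh => hμ hh), zero_add] at h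
      obtain ⟨ν, hν, h2⟩ := sh_ne_zero h
      exact ⟨ν, hν, by simpa using h2⟩
    · exfalso
      rw [al_nonlink hl, Finsupp.single_eq_of_ne (by exact fun hh => hμ hh)] at h
      exact h rfl

lemma al_supp (l n : ℕ) : ∀ μ : ℕ × ℕ, al 𝕜 (l, n) μ ≠ 0 → μ.1 ≤ l ∧ μ.2 ≤ n + l ^ 2 := by
  revert l n
  apply lex_ind
  intro l n ih μ h
  rcases al_ne_zero h with rfl | ⟨c, a, h1, ha, ν, hν, h2⟩
  · simp
  · have h3 := ih ν.1 ν.2 (pr_supp h1 ha hν).2.2.1 μ h2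
    rcases pr_supp' h1 ha hν with ⟨h4, rfl⟩ | ⟨h4, h5, h6, h7⟩
    · simp only at h3
      omega
    · refine ⟨by omega, ?_⟩
      have h8 : ν.1 ^ 2 + l ≤ l ^ 2 + 1 := by
        obtain ⟨k, rfl⟩ := Nat.exists_eq_add_of_lt h6
        nlinarith
      omega

/-- link nodes with large code -/
def LinkGe (c l n : ℕ) : Prop := ∃ c' a, InWin l n c' a ∧ a < s c' ∧ c ≤ c'

lemma al_key {c t : ℕ} (ht : s c ≤ t) {l₀ n₀ : ℕ} (h₀ : LinkGe c l₀ n₀) (l N : ℕ) :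
    l < c → al 𝕜 (l, N) (l₀, n₀ + t) ≠ 0 → ∃ N', N = N' + t ∧ LinkGe c l N' := by
  revert l N
  apply lex_ind
  intro l N ih hl h
  rcases al_ne_zero h with h1 | ⟨κ, a, h1, ha, ν, hν, h2⟩
  · simp only [Prod.mk.injEq] at h1
    obtain ⟨rfl, rfl⟩ := h1
    exact ⟨n₀, rfl, h₀⟩
  · rcases pr_supp' h1 ha hν with ⟨h4, rfl⟩ | ⟨h4, h5, h6, h7⟩
    · obtain ⟨A', hA', hL⟩ := ih l a (Or.inr ⟨rfl, h4⟩) hl h2
      obtain ⟨N', rfl⟩ : ∃ N', N = N' + t := ⟨N - t, by omega⟩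
      subst hA'
      refine ⟨N', rfl, κ, A', h1.unshift, by omega, ?_⟩
      by_contra hcon
      push Not at hcon
      have := s_strictMono hcon
      omega
    · exfalso
      obtain ⟨A', hA', hL⟩ := ih ν.1 ν.2 (Or.inl h6) (by omega) h2
      obtain ⟨c', a', h8, h9, h10⟩ := hL
      have h11 := h8.code_lt (c := c) (by omega) (by
        have := s_add_le_q l
        have := q_strictMono.monotone hl.le
        subst h4 h5
        omega)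
      omega

lemma al_small {l A t : ℕ} (h : A < t) : nrm (rhot t) (al 𝕜 (l, A)) ≤ E l := by
  induction A using Nat.strong_induction_on with
  | _ A ih =>
    have h0 : rhot t (l, A) = 0 := by
      unfold rhot; rw [if_neg (by simp only; omega)]
    by_cases hl : Link l A
    · obtain ⟨c, a, h1, ha⟩ := hl
      rw [al_eq]
      refine (nrm_add_le (rhot_nonneg t) _ _).trans ?_
      rw [nrm_single, h0, mul_zero, zero_add]
      by_cases han : a < A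
      · rw [pr_ret h1 ha han, sh_single, one_smul]
        exact ih a han (by omega)
      · obtain ⟨_, h3⟩ := h1.init han
        refine (nrm_mono (rhot_le t) _).trans ?_
        have := sh_nrm_le (𝕜 := 𝕜) (t := 0) h1 ha (by have := s_lt_W c; omega)
        rw [h3] at this
        exact this
    · rw [al_nonlink hl, nrm_single, h0, mul_zero]
      exact E_nonneg l

lemma al_bound (l n l₁ n₁ t : ℕ) : ‖al 𝕜 (l, n + t) (l₁, n₁ + t)‖ ≤ 1 + E (cd l n) := by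
  have hE := E_nonneg (cd l n)
  have hs : ‖(Finsupp.single (l, n + t) (1:𝕜)) (l₁, n₁ + t)‖ ≤ 1 := by
    rw [Finsupp.single_apply]; split_ifs <;> simp
  by_cases hl : Link l (n + t)
  · obtain ⟨c, a, h1, ha⟩ := hl
    rw [al_eq, Finsupp.add_apply]
    refine (norm_add_le _ _).trans (add_le_add hs ?_)
    by_cases hat : t ≤ a
    · obtain ⟨a', rfl⟩ : ∃ a', a = a' + t := ⟨a - t, by omega⟩
      rw [h1.unshift.cd_eq]
      have h2 := sh_nrm_le (𝕜 := 𝕜) (t := 0) h1 ha (by have := s_lt_W c; omega)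
      refine le_trans ?_ h2
      refine le_trans ?_ (le_nrm rho_nonneg _ (l₁, n₁ + t))
      exact le_mul_of_one_le_right (norm_nonneg _) (one_le_rho _)
    · push Not at hat
      have han : a < n + t := by omega
      rw [pr_ret h1 ha han, sh_single, one_smul, Nat.add_zero]
      have h2 := al_small (𝕜 := 𝕜) (l := l) hat
      refine le_trans ?_ (h2.trans (E_mono (le_cd l n)))
      refine le_trans ?_ (le_nrm (rhot_nonneg t) _ (l₁, n₁ + t))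
      apply le_mul_of_one_le_right (norm_nonneg _)
      unfold rhot
      rw [if_pos (by simp only; omega)]
      exact le_max_right _ _
  · rw [al_nonlink hl]
    linarith

lemma abs_sh_le (t : ℕ) (η : ℕ × ℕ →₀ 𝕜) (μ : ℕ × ℕ) {B : ℝ}
    (h : ∀ ν ∈ η.support, ‖al 𝕜 (ν.1, ν.2 + t) μ‖ ≤ B) :
    ‖sh (al 𝕜) t η μ‖ ≤ nrm (fun _ => 1) η * B := by
  rw [sh_apply, Finsupp.sum, Finsupp.finsetSum_apply, nrm_eq_sum (Finset.Subset.refl _),
    Finset.sum_mul]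
  refine (norm_sum_le _ _).trans (Finset.sum_le_sum fun ν hν => ?_)
  rw [Finsupp.smul_apply, smul_eq_mul, norm_mul, mul_one]
  exact mul_le_mul_of_nonneg_left (h ν hν) (norm_nonneg _)

lemma one_add_E_le {c : ℕ} {ν : ℕ × ℕ} (h : cd ν.1 ν.2 < c) :
    1 + E (cd ν.1 ν.2) ≤ 2 * D (c - 1) := by
  have h1 := E_lt_of h
  have h2 := one_le_D (cd ν.1 ν.2)
  linarith

lemma sh_bound (l n l₁ n₁ t : ℕ) : ‖sh (al 𝕜) t (pr 𝕜 l n) (l₁, n₁ + t)‖ ≤ E (cd l n) := by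
  by_cases hl : Link l n
  · obtain ⟨c, a, h, ha⟩ := hl
    rw [h.cd_eq]
    have hB : ∀ ν ∈ (pr 𝕜 l n).support, ‖al 𝕜 (ν.1, ν.2 + t) (l₁, n₁ + t)‖ ≤ 2 * D (c - 1) := by
      intro ν hν
      obtain ⟨h1, h2, h3, h4⟩ := pr_supp h ha hν
      have h5 := h4 0 (by have := s_lt_W c; omega)
      exact (al_bound _ _ _ _ _).trans (one_add_E_le (cd_lt h1 (by omega)))
    refine (abs_sh_le t _ _ hB).trans ?_
    have h1 := pr_nrm (𝕜 := 𝕜) h ha
    have h2 := D_pos (c - 1)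
    unfold E
    nlinarith
  · rw [pr_nonlink hl]
    simp [E_nonneg]

lemma al_limit (l n l₁ n₁ t : ℕ) (h1 : s l ≤ t) (h2 : n + 2 * l ^ 2 ≤ t) :
    al 𝕜 (l, n + t) (l₁, n₁ + t) = if (l, n) = (l₁, n₁) then 1 else 0 := by
  rw [al_eq, Finsupp.add_apply]
  have hz : sh (al 𝕜) 0 (pr 𝕜 l (n + t)) (l₁, n₁ + t) = 0 := by
    by_contra hcon
    obtain ⟨ν, hν, h3⟩ := sh_ne_zero hcon
    have hl : Link l (n + t) := by
      by_contra hcon'
      rw [pr_nonlink hcon'] at hν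
      simp at hν
    obtain ⟨c, a, h4, ha⟩ := hl
    rcases pr_supp' h4 ha hν with ⟨h5, rfl⟩ | ⟨h5, h6, h7, h8⟩
    · simp only [Nat.add_zero] at h3
      have h6 := (al_supp l a _ h3).2
      simp only at h6
      have h7 := L_ge (h4.ret h5).2.2
      have h8 := s_add_le_q c
      omega
    · subst h6; omega
  rw [hz, add_zero, Finsupp.single_apply]
  simp only [Prod.mk.injEq, Nat.add_right_cancel_iff]

end Pool.Agent.FRecExK
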