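import Pool.Agent.Lib.MP_7b2682_an.K.VBound

set_option autoImplicit false

open Topology Filter

namespace Pool.Agent.FRecExK

open Pool.Agent.FRecEx

variable {𝕜 : Type} [RCLike 𝕜]

lemma FR.return_large {x : X 𝕜} (hx : FR x) {ε : ℝ} (hε : 0 < ε) (t₀ : ℕ) :
    ∃ t ≥ t₀, ‖(T 𝕜 ^ t) x - x‖ < ε := by
  obtain ⟨δ, hδ, N₀, hN⟩ := hx (Metric.ball x ε) (Metric.ball_mem_nhds x hε)
  by_contra hcon
  push Not at hcon
  obtain ⟨K, hK⟩ := exists_nat_gt ((t₀ : ℝ) / δ)
  have h1 := hN (max N₀ K) (le_max_left _ _)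
  have h2 : {n : ℕ | 1 ≤ n ∧ n ≤ max N₀ K ∧ (T 𝕜 ^ n) x ∈ Metric.ball x ε}.ncard ≤
      (Set.Iio t₀).ncard := by
    apply Set.ncard_le_ncard
    · rintro n ⟨_, _, h3⟩
      rw [Metric.mem_ball, dist_eq_norm] at h3
      by_contra h4
      rw [Set.mem_Iio, not_lt] at h4
      exact absurd h3 (not_lt.2 (hcon n h4))
    · exact Set.finite_Iio t₀
  have h3 : (Set.Iio t₀).ncard = t₀ := by
    rw [← Finset.coe_Iio, Set.ncard_coe_finset, Nat.card_Iio]
  rw [h3] at h2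
  have h4 : δ * ((max N₀ K : ℕ) : ℝ) ≤ t₀ := h1.trans (by exact_mod_cast h2)
  rw [div_lt_iff₀ hδ] at hK
  have h5 : (K : ℝ) ≤ ((max N₀ K : ℕ) : ℝ) := by exact_mod_cast le_max_right _ _
  nlinarith

lemma FR.good_time {x : X 𝕜} (hx : FR x) : ∃ c₀, ∀ c ≥ c₀, ∃ t, s c ≤ t ∧ t + s c ≤ W c ∧
    ‖(T 𝕜 ^ t) x‖ ≤ ‖x‖ + 1 := by
  obtain ⟨δ, hδ, N₀, hN⟩ := hx (Metric.ball x 1) (Metric.ball_mem_nhds x one_pos)
  obtain ⟨K, hK⟩ := exists_nat_gt (1 / δ)
  refine ⟨max N₀ K, fun c hc => ?_⟩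
  by_contra hcon
  push Not at hcon
  have hcN : N₀ ≤ c := (le_max_left _ _).trans hc
  have hcK : K ≤ c := (le_max_right _ _).trans hc
  have hs := s_pos c
  have hcs := c_lt_s c
  have hWs : W c - s c = s c * (s c - 1) := by
    rw [W_eq, sq, Nat.mul_sub, mul_one]
  have h0 : s c ≤ s c * (s c - 1) := Nat.le_mul_of_pos_right _ (by omega)
  have h1 := hN (W c - s c) (by omega)
  have h2 : {n : ℕ | 1 ≤ n ∧ n ≤ W c - s c ∧ (T 𝕜 ^ n) x ∈ Metric.ball x 1}.ncard ≤
      (Set.Icc 1 (s c - 1)).ncard := by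
    apply Set.ncard_le_ncard
    · rintro n ⟨h3, h4, h5⟩
      refine ⟨h3, ?_⟩
      by_contra h6
      have h7 := s_lt_W c
      have h8 := hcon n (by omega) (by omega)
      rw [Metric.mem_ball, dist_eq_norm] at h5
      have h9 : ‖(T 𝕜 ^ n) x‖ ≤ ‖(T 𝕜 ^ n) x - x‖ + ‖x‖ := by
        have := norm_add_le ((T 𝕜 ^ n) x - x) x
        rwa [sub_add_cancel] at this
      linarith
    · exact Set.finite_Icc _ _
  have h3 : (Set.Icc 1 (s c - 1)).ncard = s c - 1 := by
    rw [← Finset.coe_Icc, Set.ncard_coe_finset, Nat.card_Icc]; omega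
  rw [h3] at h2
  have h4 : δ * ((W c - s c : ℕ) : ℝ) ≤ ((s c - 1 : ℕ) : ℝ) := h1.trans (by exact_mod_cast h2)
  rw [hWs, Nat.cast_mul, ← mul_assoc] at h4
  have h5 : 1 < δ * s c := by
    rw [div_lt_iff₀ hδ] at hK
    have : (K : ℝ) ≤ s c := by exact_mod_cast hcK.trans hcs.le
    nlinarith
  have h6 : (0:ℝ) < ((s c - 1 : ℕ) : ℝ) := by
    have : 0 < s c - 1 := by omega
    exact_mod_cast this
  nlinarith

lemma E_decay (c : ℕ) : 1 + 2 * E c ≤ D c / 2 ^ c := by
  rcases c with _ | c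
  · unfold E; simp; exact one_le_D 0
  · unfold E
    rw [D_succ, le_div_iff₀ (by positivity)]
    simp only [Nat.add_sub_cancel]
    have h1 := D_large c
    have h2 := one_le_D c
    have h3 : (0:ℝ) ≤ c := Nat.cast_nonneg c
    have h4 : (2:ℝ) ^ (c + 1) ≤ D c := by
      unfold D
      apply pow_le_pow_right₀ (by norm_num)
      have h5 : c < 4 ^ c := Nat.lt_pow_self (by norm_num)
      rw [d_eq]; omega
    push_cast
    have h5 : 1 + 2 * (2 * ((c:ℝ) + 1) * D c) ≤ D c * D c := by nlinarith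
    calc (1 + 2 * (2 * ((c:ℝ) + 1) * D c)) * 2 ^ (c + 1) ≤ (D c * D c) * D c := by
          apply mul_le_mul h5 h4 (by positivity) (by positivity)
      _ = D c ^ 3 := by ring
      _ ≤ D c ^ 4 := pow_le_pow_right₀ h2 (by norm_num)

/-- uniform bound on the mass of link nodes of a fixed code -/
lemma FR.mass {x : X 𝕜} (hx : FR x) : ∃ M : ℝ, 0 ≤ M ∧ ∀ c, ∀ S : Finset (ℕ × ℕ),
    (∀ ν ∈ S, LinkEq c ν) → ∑ ν ∈ S, ‖x ν‖ / wt ν ≤ M / D c := by
  obtain ⟨c₀, hc₀⟩ := hx.good_time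
  refine ⟨2 * (‖x‖ + 1 + ‖x‖) + ∑ c ∈ Finset.range c₀, 2 ^ c * D c * ‖x‖, ?_, ?_⟩
  · have : 0 ≤ ∑ c ∈ Finset.range c₀, 2 ^ c * D c * ‖x‖ :=
      Finset.sum_nonneg fun c _ => by have := D_pos c; positivity
    positivity
  · intro c S hS
    have hD := D_pos c
    have hsum : 0 ≤ ∑ c ∈ Finset.range c₀, 2 ^ c * D c * ‖x‖ :=
      Finset.sum_nonneg fun c _ => by have := D_pos c; positivity
    by_cases hc : c₀ ≤ c
    · obtain ⟨t, h1, h2, h3⟩ := hc₀ c hc
      refine (vbound h1 h2 S hS).trans ?_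
      apply div_le_div_of_nonneg_right _ hD.le
      linarith
    · push Not at hc
      have h1 : ∑ ν ∈ S, ‖x ν‖ / wt ν ≤ ∑ ν ∈ S, 2 ^ c * ‖x ν‖ := by
        apply Finset.sum_le_sum
        rintro ⟨l, n⟩ hν
        obtain ⟨a, h, ha⟩ := hS _ hν
        simp only at h
        rw [wt_link h ha, div_div_eq_mul_div, mul_comm]
        apply div_le_self (by positivity)
        exact one_le_pow₀ (by norm_num)
      have h2 : ∑ ν ∈ S, ‖x ν‖ ≤ ‖x‖ := sum_le_hasSum S (fun _ _ => norm_nonneg _) (hasSum_abs x)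
      rw [← Finset.mul_sum] at h1
      rw [le_div_iff₀ hD]
      have h3 : 2 ^ c * D c * ‖x‖ ≤ ∑ c ∈ Finset.range c₀, 2 ^ c * D c * ‖x‖ :=
        Finset.single_le_sum (f := fun c => 2 ^ c * D c * ‖x‖)
          (fun c _ => by have := D_pos c; positivity) (Finset.mem_range.2 hc)
      have h4 : (∑ ν ∈ S, ‖x ν‖ / wt ν) * D c ≤ 2 ^ c * ‖x‖ * D c := by
        apply mul_le_mul_of_nonneg_right _ hD.le
        refine h1.trans ?_
        apply mul_le_mul_of_nonneg_left h2 (by positivity)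
      have h5 := norm_nonneg x
      nlinarith

/-- the dominating function -/
noncomputable def dom (x : X 𝕜) (ν : ℕ × ℕ) : ℝ := ‖x ν‖ / wt ν * (1 + 2 * E (cd ν.1 ν.2))

lemma dom_nonneg (x : X 𝕜) (ν : ℕ × ℕ) : 0 ≤ dom x ν := by
  unfold dom
  have := wt_pos ν
  have := E_nonneg (cd ν.1 ν.2)
  positivity

open Classical in
lemma FR.summable_dom {x : X 𝕜} (hx : FR x) : Summable (dom x) := by
  obtain ⟨M, hM0, hM⟩ := hx.mass
  apply summable_of_sum_le (c := 2 * ‖x‖ + M * 2) (dom_nonneg x)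
  intro S
  rw [← Finset.sum_filter_not_add_sum_filter S (fun ν => Link ν.1 ν.2)]
  apply add_le_add
  · have h1 : ∑ ν ∈ S.filter (fun ν => ¬ Link ν.1 ν.2), dom x ν ≤
        ∑ ν ∈ S.filter (fun ν => ¬ Link ν.1 ν.2), 2 * ‖x ν‖ := by
      apply Finset.sum_le_sum
      rintro ⟨l, n⟩ hν
      have hl := (Finset.mem_filter.1 hν).2
      simp only at hl
      unfold dom
      rw [wt_nonlink hl]
      simp only
      have h1 := E_le (cd l n)
      have h2 := one_le_D (cd l n)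
      have h3 := norm_nonneg (x (l, n))
      have h4 : 0 < D (cd l n) := D_pos _
      rw [div_mul_eq_mul_div, div_le_iff₀ h4]
      nlinarith
    refine h1.trans ?_
    rw [← Finset.mul_sum]
    have := sum_le_hasSum (S.filter (fun ν => ¬ Link ν.1 ν.2)) (fun _ _ => norm_nonneg _)
      (hasSum_abs x)
    linarith
  · set R := S.filter (fun ν => Link ν.1 ν.2) with hR
    obtain ⟨B, hB⟩ : ∃ B, ∀ ν ∈ R, cd ν.1 ν.2 ∈ Finset.range B := by
      refine ⟨R.sup (fun ν => cd ν.1 ν.2) + 1, fun ν hν => ?_⟩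
      rw [Finset.mem_range]
      have : cd ν.1 ν.2 ≤ _ := Finset.le_sup (f := fun ν : ℕ × ℕ => cd ν.1 ν.2) hν
      omega
    rw [← Finset.sum_fiberwise_of_maps_to hB]
    calc ∑ c ∈ Finset.range B, ∑ ν ∈ R.filter (fun ν => cd ν.1 ν.2 = c), dom x ν
        ≤ ∑ c ∈ Finset.range B, M * (1 / 2) ^ c := by
          apply Finset.sum_le_sum
          intro c _
          have h1 : ∑ ν ∈ R.filter (fun ν => cd ν.1 ν.2 = c), dom x ν =
              (∑ ν ∈ R.filter (fun ν => cd ν.1 ν.2 = c), ‖x ν‖ / wt ν) * (1 + 2 * E c) := by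
            rw [Finset.sum_mul]
            apply Finset.sum_congr rfl
            intro ν hν
            unfold dom
            rw [(Finset.mem_filter.1 hν).2]
          rw [h1]
          have h2 := hM c (R.filter (fun ν => cd ν.1 ν.2 = c)) (by
            rintro ν hν
            obtain ⟨h3, h4⟩ := Finset.mem_filter.1 hν
            obtain ⟨c', a, h5, h6⟩ := (Finset.mem_filter.1 h3).2
            rw [h5.cd_eq] at h4
            subst h4
            exact ⟨a, h5, h6⟩)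
          have h3 := E_decay c
          have hD := D_pos c
          have hE := E_nonneg c
          calc (∑ ν ∈ R.filter (fun ν => cd ν.1 ν.2 = c), ‖x ν‖ / wt ν) * (1 + 2 * E c)
              ≤ (M / D c) * (D c / 2 ^ c) := by
                apply mul_le_mul h2 h3 (by positivity) (by positivity)
            _ = M * (1 / 2) ^ c := by rw [one_div_pow]; field_simp
      _ = M * ∑ c ∈ Finset.range B, (1 / 2) ^ c := by rw [Finset.mul_sum]
      _ ≤ M * 2 := mul_le_mul_of_nonneg_left (sum_geometric_two_le B) hM0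

end Pool.Agent.FRecExK
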