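import Pool.Agent.Lib.MP_7b2682_an.K.Dense

set_option autoImplicit false

open Topology

namespace Pool.Agent.FRecExK

open Pool.Agent.FRecEx

variable {𝕜 : Type} [RCLike 𝕜]

/-- broken link nodes -/
def InJ (c t l n : ℕ) : Prop := ∃ c' a, InWin l n c' a ∧ a < s c' ∧ c ≤ c' ∧ s c' ≤ a + t

/-- conjugate sign of a scalar -/
noncomputable def csg (z : 𝕜) : 𝕜 := (starRingEnd 𝕜) z / ((‖z‖ : ℝ) : 𝕜)

lemma norm_csg_le (z : 𝕜) : ‖csg z‖ ≤ 1 := by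
  unfold csg
  rw [norm_div, RCLike.norm_conj, RCLike.norm_ofReal, abs_of_nonneg (norm_nonneg z)]
  exact div_self_le_one _

lemma mul_csg (z : 𝕜) : z * csg z = ((‖z‖ : ℝ) : 𝕜) := by
  unfold csg
  by_cases h : z = 0
  · rw [h]; simp
  · have h1 : ((‖z‖ : ℝ) : 𝕜) ≠ 0 := by
      rw [Ne, RCLike.ofReal_eq_zero, norm_eq_zero]; exact h
    rw [mul_div_assoc', RCLike.mul_conj, div_eq_iff h1, sq]

open Classical in
/-- sign pattern -/
noncomputable def sg (x : X 𝕜) (c t : ℕ) (μ : ℕ × ℕ) : 𝕜 :=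
  if t ≤ μ.2 ∧ InJ c t μ.1 (μ.2 - t) then csg (x (μ.1, μ.2 - t)) else 0

lemma sg_abs (x : X 𝕜) (c t : ℕ) (μ : ℕ × ℕ) : ‖sg x c t μ‖ ≤ 1 := by
  unfold sg
  split_ifs
  · exact norm_csg_le _
  · simp

lemma sg_ne_zero {x : X 𝕜} {c t : ℕ} {μ : ℕ × ℕ} (h : sg x c t μ ≠ 0) :
    ∃ n₀, μ = (μ.1, n₀ + t) ∧ InJ c t μ.1 n₀ := by
  unfold sg at h
  split_ifs at h with h1
  · refine ⟨μ.2 - t, ?_, h1.2⟩
    apply Prod.ext
    · rfl
    · simp only; omega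
  · exact absurd rfl h

lemma sg_eq {x : X 𝕜} {c t l n : ℕ} (h : InJ c t l n) :
    sg x c t (l, n + t) = csg (x (l, n)) := by
  unfold sg
  rw [if_pos]
  · simp
  · simp only [Nat.add_sub_cancel]
    exact ⟨by omega, h⟩

lemma sg_zero {x : X 𝕜} {c t l n : ℕ} (h : ¬ InJ c t l n) : sg x c t (l, n + t) = 0 := by
  by_contra hcon
  obtain ⟨n₀, h1, h2⟩ := sg_ne_zero hcon
  simp only [Prod.mk.injEq, Nat.add_right_cancel_iff, true_and] at h1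
  subst h1
  exact h h2

/-- test functional -/
noncomputable def phi (x : X 𝕜) (c t : ℕ) : X 𝕜 →L[𝕜] 𝕜 := lift (sg x c t) 1 (sg_abs x c t)

lemma phi_e (x : X 𝕜) (c t : ℕ) (μ : ℕ × ℕ) : phi x c t (e 𝕜 μ) = sg x c t μ := lift_e _ _ _ _

lemma phi_emb (x : X 𝕜) (c t : ℕ) (η : ℕ × ℕ →₀ 𝕜) :
    phi x c t (emb η) = η.sum fun μ r => r • (wk 𝕜 μ • sg x c t μ) := by
  have h := map_emb (phi x c t).toLinearMap η
  have h1 : (phi x c t).toLinearMap (emb η) = phi x c t (emb η) := rfl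
  rw [h1] at h
  rw [h]
  apply Finsupp.sum_congr
  intro μ _
  change _ • (_ • phi x c t (e 𝕜 μ)) = _
  rw [phi_e]

lemma phi_emb_le (x : X 𝕜) (c t : ℕ) (η : ℕ × ℕ →₀ 𝕜) : ‖phi x c t (emb η)‖ ≤ nrm (rhot t) η := by
  rw [phi_emb, Finsupp.sum, nrm_eq_sum (Finset.Subset.refl _)]
  refine (norm_sum_le _ _).trans (Finset.sum_le_sum fun μ _ => ?_)
  rw [smul_eq_mul, smul_eq_mul, norm_mul, norm_mul, norm_wk]
  apply mul_le_mul_of_nonneg_left _ (norm_nonneg _)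
  by_cases h : sg x c t μ = 0
  · rw [h, norm_zero, mul_zero]; exact rhot_nonneg t μ
  · obtain ⟨n₀, h1, _⟩ := sg_ne_zero h
    have h2 : t ≤ μ.2 := by rw [h1]; simp only; omega
    unfold rhot
    rw [if_pos h2]
    have h3 := sg_abs x c t μ
    calc wt μ * ‖sg x c t μ‖ ≤ wt μ * 1 := mul_le_mul_of_nonneg_left h3 (wt_pos μ).le
      _ ≤ max (wt μ) 1 := by rw [mul_one]; exact le_max_left _ _

lemma phi_emb_zero (x : X 𝕜) (c t : ℕ) (η : ℕ × ℕ →₀ 𝕜) (h : ∀ μ, η μ ≠ 0 → sg x c t μ = 0) :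
    phi x c t (emb η) = 0 := by
  rw [phi_emb, Finsupp.sum]
  apply Finset.sum_eq_zero
  intro μ hμ
  rw [h μ (Finsupp.mem_support_iff.1 hμ), smul_zero, smul_zero]

lemma phi_norm (x : X 𝕜) (c t : ℕ) (y : X 𝕜) : ‖phi x c t y‖ ≤ ‖y‖ := by
  have h := (phi x c t).le_opNorm y
  have h1 : ‖phi x c t‖ ≤ 1 := norm_lift_le _ _ _ zero_le_one
  nlinarith [norm_nonneg y]

/-- value of the functional on images of unit vectors -/
lemma phi_T (x : X 𝕜) (c t l n : ℕ) : phi x c t ((T 𝕜 ^ t) (e 𝕜 (l, n))) =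
    (wk 𝕜 (l, n))⁻¹ * (phi x c t (U 𝕜 (l, n + t)) - phi x c t (sh (U 𝕜) t (pr 𝕜 l n))) := by
  rw [Tpow_e, map_smul, map_sub, smul_eq_mul]

lemma phi_J {x : X 𝕜} {c t l n c' a : ℕ} (h2 : t + s c ≤ W c)
    (h : InWin l n c' a) (ha : a < s c') (hc : c ≤ c') (hs : s c' ≤ a + t) :
    3 / 4 * (‖x (l, n)‖ / wt (l, n) * D c') ≤
      RCLike.re (x (l, n) * phi x c t ((T 𝕜 ^ t) (e 𝕜 (l, n)))) := by
  have hW := W_sub hc h2
  have hw := wt_pos (l, n)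
  have hJ : InJ c t l n := ⟨c', a, h, ha, hc, hs⟩
  have h3 : InWin l (n + t) c' (a + t) := h.shift (by omega)
  have hn : ¬ Link l (n + t) := by
    rintro ⟨c'', a', h', ha'⟩
    have h4 := h'.unique h3
    obtain ⟨rfl, rfl⟩ := h4
    omega
  have h5 : phi x c t (U 𝕜 (l, n + t)) = ((D c' : ℝ) : 𝕜) * csg (x (l, n)) := by
    rw [U_nonlink hn, map_smul, phi_e, sg_eq hJ, smul_eq_mul, wk, wt_top h3 hs]
  have h6 : ‖phi x c t (sh (U 𝕜) t (pr 𝕜 l n))‖ ≤ E c' :=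
    (phi_norm _ _ _ _).trans (norm_sh_U_le h ha (by omega))
  have h7 := E_le c'
  rw [phi_T, h5]
  have h9 : RCLike.re (x (l, n) * phi x c t (sh (U 𝕜) t (pr 𝕜 l n))) ≤
      ‖x (l, n)‖ * (D c' / 4) := by
    refine (RCLike.re_le_norm _).trans ?_
    rw [norm_mul]
    apply mul_le_mul_of_nonneg_left _ (norm_nonneg _)
    linarith
  have h10 : x (l, n) * ((wk 𝕜 (l, n))⁻¹ * (((D c' : ℝ) : 𝕜) * csg (x (l, n)) -
      phi x c t (sh (U 𝕜) t (pr 𝕜 l n)))) = (((wt (l, n))⁻¹ : ℝ) : 𝕜) *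
      (((D c' * ‖x (l, n)‖ : ℝ) : 𝕜) - x (l, n) * phi x c t (sh (U 𝕜) t (pr 𝕜 l n))) := by
    have h8 := mul_csg (x (l, n))
    rw [RCLike.ofReal_mul, ← h8, RCLike.ofReal_inv]
    unfold wk
    ring
  rw [h10, RCLike.re_ofReal_mul, map_sub, RCLike.ofReal_re]
  have h11 : 3 / 4 * (‖x (l, n)‖ / wt (l, n) * D c') =
      (wt (l, n))⁻¹ * (D c' * ‖x (l, n)‖ - ‖x (l, n)‖ * (D c' / 4)) := by
    field_simp; ring
  rw [h11]
  apply mul_le_mul_of_nonneg_left _ (inv_nonneg.2 hw.le)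
  linarith

lemma phi_intact {x : X 𝕜} {c t l n c' a : ℕ}
    (h : InWin l n c' a) (hs : a + t < s c') :
    phi x c t ((T 𝕜 ^ t) (e 𝕜 (l, n))) = 0 := by
  have hnJ : ¬ InJ c t l n := by
    rintro ⟨c'', a', h', _, _, h4⟩
    obtain ⟨rfl, rfl⟩ := h'.unique h
    omega
  rw [phi_T, ← sh_pr_shift (U 𝕜) h hs, U_eq l (n + t), map_add, map_smul, phi_e, sg_zero hnJ]
  simp

lemma phi_small {x : X 𝕜} {c t l n c' a : ℕ} (h1 : s c ≤ t)
    (h : InWin l n c' a) (ha : a < s c') (hc : c' < c) :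
    phi x c t ((T 𝕜 ^ t) (e 𝕜 (l, n))) = 0 := by
  have hl := h.code_ge
  rw [phi_T]
  have h3 : phi x c t (U 𝕜 (l, n + t)) = 0 := by
    apply phi_emb_zero
    intro μ hμ
    by_contra hcon
    obtain ⟨n₀, h4, c₁, a₁, h5, h6, h7, h8⟩ := sg_ne_zero hcon
    rw [h4] at hμ
    obtain ⟨N', h9, c₂, a₂, h10, h11, h12⟩ := al_key h1 ⟨c₁, a₁, h5, h6, h7⟩ l (n + t) (by omega) hμ
    have : N' = n := by omega
    subst this
    obtain ⟨rfl, rfl⟩ := h10.unique h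
    omega
  have h4 : phi x c t (sh (U 𝕜) t (pr 𝕜 l n)) = 0 := by
    rw [← emb_sh]
    apply phi_emb_zero
    intro μ hμ
    by_contra hcon
    obtain ⟨n₀, h4, c₁, a₁, h5, h6, h7, h8⟩ := sg_ne_zero hcon
    obtain ⟨ν, hν, h9⟩ := sh_ne_zero hμ
    rw [h4] at h9
    obtain ⟨h10, h11, h12, h13⟩ := pr_supp h ha hν
    obtain ⟨N', h14, c₂, a₂, h15, h16, h17⟩ :=
      al_key h1 ⟨c₁, a₁, h5, h6, h7⟩ ν.1 (ν.2 + t) (by omega) h9
    have : N' = ν.2 := by omega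
    subst this
    have h18 := h13 0 (by have := s_lt_W c'; omega)
    have h19 := h15.code_lt h10 (by omega)
    omega
  rw [h3, h4]; simp

lemma phi_nonlink {x : X 𝕜} {c t l n : ℕ} (h : ¬ Link l n) :
    ‖phi x c t ((T 𝕜 ^ t) (e 𝕜 (l, n)))‖ ≤ 1 / 4 := by
  have hw := wt_pos (l, n)
  have hnJ : ¬ InJ c t l n := by
    rintro ⟨c'', a', h', h2, _, h4⟩
    exact h ⟨c'', a', h', h2⟩
  rw [phi_T, pr_nonlink h, map_zero, map_zero, sub_zero, norm_mul, norm_inv, norm_wk,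
    inv_mul_le_iff₀ hw]
  have hD : D l ≤ wt (l, n) := by
    rw [wt_nonlink h]; exact D_mono (le_cd l n)
  have hE := E_le l
  by_cases hl : Link l (n + t)
  · obtain ⟨κ, A, h1, hA⟩ := hl
    have hAt : A < t := by
      by_contra hcon
      push Not at hcon
      obtain ⟨A', rfl⟩ : ∃ A', A = A' + t := ⟨A - t, by omega⟩
      exact h ⟨κ, A', h1.unshift, by omega⟩
    rw [U_eq, pr_ret h1 hA (by omega), sh_single, one_smul, map_add, map_smul, phi_e, sg_zero hnJ,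
      smul_zero, zero_add, Nat.add_zero]
    have h2 := phi_emb_le x c t (al 𝕜 (l, A))
    have h3 := al_small (𝕜 := 𝕜) (l := l) hAt
    have h4 : phi x c t (U 𝕜 (l, A)) = phi x c t (emb (al 𝕜 (l, A))) := rfl
    rw [h4]
    linarith
  · rw [U_nonlink hl, map_smul, phi_e, sg_zero hnJ, smul_zero, norm_zero]
    linarith

lemma phi_term {x : X 𝕜} {c t : ℕ} (h1 : s c ≤ t) (h2 : t + s c ≤ W c) (ν : ℕ × ℕ) :
    0 ≤ RCLike.re (x ν * phi x c t ((T 𝕜 ^ t) (e 𝕜 ν))) + 1 / 4 * ‖x ν‖ := by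
  obtain ⟨l, n⟩ := ν
  have hx := norm_nonneg (x (l, n))
  by_cases h : Link l n
  · obtain ⟨c', a, h, ha⟩ := h
    by_cases hc : c ≤ c'
    · by_cases hs : s c' ≤ a + t
      · have := phi_J (x := x) h2 h ha hc hs
        have h3 : 0 ≤ 3 / 4 * (‖x (l, n)‖ / wt (l, n) * D c') := by
          have := wt_pos (l, n); have := D_pos c'; positivity
        linarith
      · rw [phi_intact h (by omega), mul_zero, map_zero]; linarith
    · rw [phi_small h1 h ha (by omega), mul_zero, map_zero]; linarith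
  · have h3 := phi_nonlink (x := x) (c := c) (t := t) h
    have h4 : ‖x (l, n) * phi x c t ((T 𝕜 ^ t) (e 𝕜 (l, n)))‖ ≤ 1 / 4 * ‖x (l, n)‖ := by
      rw [norm_mul]; nlinarith
    have h5 := RCLike.abs_re_le_norm (x (l, n) * phi x c t ((T 𝕜 ^ t) (e 𝕜 (l, n))))
    have h6 := neg_abs_le (RCLike.re (x (l, n) * phi x c t ((T 𝕜 ^ t) (e 𝕜 (l, n)))))
    linarith

/-- link nodes of code exactly `c` -/
def LinkEq (c : ℕ) (ν : ℕ × ℕ) : Prop := ∃ a, InWin ν.1 ν.2 c a ∧ a < s c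

lemma vbound {x : X 𝕜} {c t : ℕ} (h1 : s c ≤ t) (h2 : t + s c ≤ W c) (S : Finset (ℕ × ℕ))
    (hS : ∀ ν ∈ S, LinkEq c ν) :
    ∑ ν ∈ S, ‖x ν‖ / wt ν ≤ 2 * (‖(T 𝕜 ^ t) x‖ + ‖x‖) / D c := by
  have hD := D_pos c
  have hs1 : HasSum (fun ν => RCLike.re (x ν * phi x c t ((T 𝕜 ^ t) (e 𝕜 ν))))
      (RCLike.re (phi x c t ((T 𝕜 ^ t) x))) := by
    have := hasSum_map ((phi x c t).comp (T 𝕜 ^ t)) x
    simp only [smul_eq_mul] at this
    exact this.mapL (RCLike.reCLM : 𝕜 →L[ℝ] ℝ)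
  have hs2 : HasSum (fun ν => 1 / 4 * ‖x ν‖) (1 / 4 * ‖x‖) := (hasSum_abs x).mul_left _
  have hs3 := hs1.add hs2
  have h3 : ∑ ν ∈ S, 3 / 4 * (‖x ν‖ / wt ν * D c) ≤
      ∑ ν ∈ S, (RCLike.re (x ν * phi x c t ((T 𝕜 ^ t) (e 𝕜 ν))) + 1 / 4 * ‖x ν‖) := by
    apply Finset.sum_le_sum
    rintro ⟨l, n⟩ hν
    obtain ⟨a, h, ha⟩ := hS _ hν
    simp only at h
    have := phi_J (x := x) (c := c) (t := t) h2 h ha le_rfl (by omega)
    have := norm_nonneg (x (l, n))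
    linarith
  have h4 : ∑ ν ∈ S, (RCLike.re (x ν * phi x c t ((T 𝕜 ^ t) (e 𝕜 ν))) + 1 / 4 * ‖x ν‖) ≤
      RCLike.re (phi x c t ((T 𝕜 ^ t) x)) + 1 / 4 * ‖x‖ :=
    sum_le_hasSum S (fun ν _ => phi_term h1 h2 ν) hs3
  have h5 := (RCLike.re_le_norm _).trans (phi_norm x c t ((T 𝕜 ^ t) x))
  rw [← Finset.mul_sum, ← Finset.sum_mul] at h3
  rw [le_div_iff₀ hD]
  have := norm_nonneg x
  have := norm_nonneg ((T 𝕜 ^ t) x)
  linarith

end Pool.Agent.FRecExK
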